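import Pool.Agent.FAS.Defs
import Pool.Agent.FAT.Capture

/-!
MP_a44074_lc, project FAS: the club form of the capture argument.
-/

set_option autoImplicit false

namespace Pool.FAS

open Ordinal Cardinal Order Set Pool.FAT

/-- The capture argument at club many points of the chain; the index depends on the point. -/
theorem capture (hTail : Stmt_Tail) (hCompl : Stmt_Compl) (hFodor : Stmt_Fodor)
    (hSeq : Stmt_Seq) (hCofEq : Stmt_CofEq) (hLift : Stmt_Lift) (hPull : Stmt_Pull)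
    (hKEQ : Stmt_KEQ) {lam κ θ : Cardinal.{0}} {μ : Ordinal.{0} → Cardinal.{0}}
    {F G : Ordinal.{0} → Ordinal.{0} → Ordinal.{0}}
    {C : Ordinal.{0} → Ordinal.{0} → Ordinal.{0} → Set Ordinal.{0}} {γ : Ordinal.{0}}
    {δ Γ : Ordinal.{0} → Ordinal.{0}} {χ : Ordinal.{0} → Ordinal.{0} → Ordinal.{0}}
    (hctx : Ctx lam κ θ μ) (hsc : Scale lam κ μ F) (hG : GFun lam κ F G)
    (hch : Chain lam κ θ μ F γ δ Γ χ) (W₀ : Set Ordinal.{0})
    (hWS : ∃ᶠ k in CF κ.ord, k ∈ W₀)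
    (hWD : ∀ k ∈ W₀, k < κ.ord → (∀ ε j, #(C k ε j) < Cardinal.lift.{1} (μ k)) ∧
      ∃ D : Set Ordinal.{0}, IsClubIn D (Γ k) ∧
        ∀ ε ∈ D, ε.cof = (μ k).ord.cof →
          ∃ j < (μ k).ord, ∀ α ∈ D, α < ε → α.cof = (μ k).ord.cof → α ∈ C k ε j) :
    ∃ P : Ordinal.{0} → Prop, (∀ᶠ ξ in CF θ.ord, P ξ) ∧
      ∀ ξ, P ξ → ξ.cof = κ → ∃ ν < κ.ord, ∀ ξ' < ξ, P ξ' → ξ'.cof = κ →
        δ ξ' ∈ XX κ μ G C ν (δ ξ) := by
  classical
  have hκθ : κ < θ := hctx.tbig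
  have hΘlim : IsSuccLimit θ.ord := isSuccLimit_ord hctx.treg.aleph0_le
  have hKlim : IsSuccLimit κ.ord := isSuccLimit_ord hctx.kreg.aleph0_le
  have hK0 : 0 < κ.ord := by
    rw [pos_iff_ne_zero]
    exact (Ordinal.isSuccLimit_iff.1 hKlim).1
  have hkev : ∀ᶠ k in CF κ.ord, k < κ.ord ∧ IsSuccLimit k :=
    (hTail κ.ord 0 hK0).mono fun k h => h.2
  have hμmono : ∀ i j, i ≤ j → j < κ.ord → μ i ≤ μ j := by
    intro i j hij hj
    rcases hij.eq_or_lt with rfl | h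
    · exact le_rfl
    · exact (hctx.mono i j h hj).le
  -- the clubs
  let W : Ordinal.{0} → Prop := fun k => k < κ.ord ∧ k ∈ W₀
  have hD : ∀ k, ∃ D : Set Ordinal.{0}, W k → IsClubIn D (Γ k) ∧
      ∀ ε ∈ D, ε.cof = (μ k).ord.cof →
        ∃ j < (μ k).ord, ∀ α ∈ D, α < ε → α.cof = (μ k).ord.cof → α ∈ C k ε j := by
    intro k
    by_cases hk : W k
    · obtain ⟨D, hD⟩ := (hWD k hk.2 hk.1).2
      exact ⟨D, fun _ => hD⟩
    · exact ⟨∅, fun h => absurd h hk⟩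
  choose D hD using hD
  let Q : Ordinal.{0} → Prop := fun η => ∀ k, W k → χ η k ∈ D k
  have hQ : ∀ᶠ η in CF θ.ord, Q η := by
    have h1 := hCompl θ hctx.treg (Set.Iio κ.ord) (by
      rw [Cardinal.mk_Iio_ordinal, card_ord, Cardinal.lift_lt]
      exact hκθ) (fun k η => W k.1 → χ η k.1 ∈ D k.1) (by
      intro k
      by_cases hk : W k.1
      · exact (hPull θ (Γ k.1) (fun η => χ η k.1) (D k.1) hctx.treg (hch.chi k.1 k.2)
          (hD k.1 hk).1).mono fun η h _ => h.2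
      · exact Filter.Eventually.of_forall fun η h => absurd h hk)
    refine h1.mono ?_
    intro η h k hk
    exact h ⟨k, hk.1⟩ hk
  -- the cofinality of the points of the chain
  have hcofε : ∀ ξ < θ.ord, ∀ e, NSeq κ.ord ξ e → ∀ k < κ.ord, IsSuccLimit k →
      (χ (e k) k).cof = (μ k).ord.cof := by
    intro ξ hξ e he k hk hl
    have hek : e k < θ.ord := (he.lt k hk).trans hξ
    have hel : IsSuccLimit (e k) := CaptureX.limit he hk hl
    have hμk : (μ k).ord.cof = k.cof := by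
      refine hCofEq k (μ k).ord (fun i => (μ i).ord) hl ?_ ?_ ?_
      · intro i hi
        exact ord_lt_ord.2 (hctx.mono i k hi hk)
      · intro i hi i' hi'
        exact ord_lt_ord.2 (hctx.mono i' i hi' (hi.trans hk))
      · intro β hβ
        obtain ⟨i, hi, h2⟩ := hctx.cont k hk hl β.card (lt_ord.1 hβ)
        exact ⟨i, hi, lt_ord.2 h2⟩
    rw [hμk, ← cof_eq hCofEq he hk hl]
    exact cof_eq hCofEq (hch.chi k hk) hek hel
  -- the predicate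
  let Pk : Ordinal.{0} → (Ordinal.{0} → Ordinal.{0}) → Ordinal.{0} → Prop := fun ν e k =>
    W k ∧ ∃ j < (μ ν).ord, #(C k (χ (e k) k) j) ≤ Cardinal.lift.{1} (μ ν) ∧
      ∀ α ∈ D k, α < χ (e k) k → α.cof = (μ k).ord.cof → α ∈ C k (χ (e k) k) j
  have hΘ0 : 0 < θ.ord := by
    rw [pos_iff_ne_zero]
    exact (Ordinal.isSuccLimit_iff.1 hΘlim).1
  refine ⟨fun ξ => ξ < θ.ord ∧ ∀ e, NSeq κ.ord ξ e → ∀ᶠ k in CF κ.ord, Q (e k),
    ((hTail θ.ord 0 hΘ0).and (hLift θ κ hctx.treg hctx.kreg hκθ Q hQ)).mono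
      fun ξ h => ⟨h.1.2.1, h.2⟩, ?_⟩
  rintro ξ ⟨hξ, hlift⟩ hcof
  obtain ⟨e, he⟩ := hSeq ξ (by rw [hcof]; exact hctx.kreg.aleph0_le)
  rw [hcof] at he
  have hQe := hlift e he
  -- the index
  have h1 : ∀ k, ∃ i, W k → IsSuccLimit k → Q (e k) → i < k ∧ Pk i e k := by
    intro k
    by_cases hk : W k ∧ IsSuccLimit k ∧ Q (e k)
    · obtain ⟨hk1, hl, hQk⟩ := hk
      obtain ⟨j, hj, hj'⟩ := (hD k hk1).2 (χ (e k) k) (hQk k hk1) (hcofε ξ hξ e he k hk1.1 hl)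
      obtain ⟨i, hi, h2⟩ := hctx.cont k hk1.1 hl j.card (lt_ord.1 hj)
      obtain ⟨ν', hν', he'⟩ := Cardinal.lt_lift_iff.1 ((hWD k hk1.2 hk1.1).1 (χ (e k) k) j)
      obtain ⟨i', hi', h2'⟩ := hctx.cont k hk1.1 hl ν' hν'
      have hm : max i i' < k := max_lt hi hi'
      refine ⟨max i i', fun _ _ _ => ⟨hm, hk1, j, ?_, ?_, hj'⟩⟩
      · exact lt_ord.2 (h2.trans_le (hμmono _ _ (le_max_left _ _) (hm.trans hk1.1)))
      · rw [← he', Cardinal.lift_le]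
        exact h2'.le.trans (hμmono _ _ (le_max_right _ _) (hm.trans hk1.1))
    · exact ⟨0, fun h h' h'' => absurd ⟨h, h', h''⟩ hk⟩
  choose f hf using h1
  obtain ⟨ν, hν, h2⟩ := hFodor κ hctx.kreg (fun k => Pk (f k) e k) f (by
    refine ((hWS.and_eventually hkev).and_eventually hQe).mono ?_
    rintro k ⟨⟨h3, h4, h5⟩, h6⟩
    have h7 : W k := ⟨h4, h3⟩
    exact ⟨(hf k h7 h5 h6).2, (hf k h7 h5 h6).1⟩)
  have hfr : ∃ᶠ k in CF κ.ord, Pk ν e k := by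
    refine h2.mono ?_
    rintro k ⟨h3, h4⟩
    rw [h4] at h3
    exact h3
  refine ⟨ν, hν, ?_⟩
  rintro ξ' hlt ⟨hξ', hlift'⟩ hcof'
  obtain ⟨e', he'⟩ := hSeq ξ' (by rw [hcof']; exact hctx.kreg.aleph0_le)
  rw [hcof'] at he'
  have hQe' := hlift' e' he'
  refine ⟨hch.del.strict ξ hξ ξ' hlt, ?_, ?_⟩
  · rw [cof_eq hCofEq hch.del hξ' (Ordinal.one_lt_cof_iff.1 (by
      rw [hcof']
      exact Cardinal.one_lt_aleph0.trans_le hctx.kreg.aleph0_le))]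
    exact hcof'
  · obtain ⟨i₀, hi₀, hi₀'⟩ := he.cofinal ξ' hlt
    refine ((((hfr.and_eventually (hKEQ lam κ θ μ F G γ δ Γ χ hctx hsc hG hch ξ hξ e he)
      ).and_eventually (hKEQ lam κ θ μ F G γ δ Γ χ hctx hsc hG hch ξ' hξ' e' he')).and_eventually
      hQe').and_eventually (hTail κ.ord i₀ hi₀)).mono ?_
    rintro k ⟨⟨⟨⟨⟨hW, j, hj, hcard, hj'⟩, h1⟩, h2⟩, h3⟩, h4, h5, h6⟩
    refine ⟨j, hj, ?_, ?_⟩
    · rw [h1]
      exact hcard
    · rw [h1, h2]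
      refine hj' _ (h3 k hW) ?_ (hcofε ξ' hξ' e' he' k h5 h6)
      have h7 : e' k < e k := ((he'.lt k h5).trans hi₀').trans (he.strict k h5 i₀ h4)
      exact (hch.chi k h5).strict (e k) ((he.lt k h5).trans hξ) (e' k) h7

end Pool.FAS
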