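import Pool.Agent.FAS.Defs

/-!
MP_a44074_lc, project FAS: a sequence that is closed under a suitable function gives a chain.
-/

set_option autoImplicit false

namespace Pool.FAS

open Ordinal Cardinal Order Set Pool.FAT

namespace ChainY

theorem sup_lt {c : Cardinal.{0}} (hc : c.IsRegular) {ι : Type 1}
    (hι : #ι < Cardinal.lift.{1} c) (f : ι → Ordinal.{0}) (hf : ∀ i, f i < c.ord) :
    (⨆ i, f i) < c.ord := by
  apply Ordinal.lift_iSup_lt_of_lt_cof _ hf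
  rw [← lift_cof, hc.cof_ord]
  simpa using hι

/-- The recursion along the elements of `s`. -/
noncomputable def xx (f : Ordinal.{0} → Ordinal.{0}) (Φ : Set Ordinal.{0} → Ordinal.{0})
    (s : Set Ordinal.{0}) (b : Ordinal.{0}) : Ordinal.{0} :=
  ⨆ i : ↥(s ∩ Set.Iio b), succ (max (max (xx f Φ s i.1) (f i.1))
    (Φ (Set.range fun j : ↥(s ∩ Set.Iic i.1) => xx f Φ s j.1)))
termination_by b
decreasing_by
  · exact i.2.2
  · exact lt_of_le_of_lt j.2.2 i.2.2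

/-- one step -/
noncomputable def st (f : Ordinal.{0} → Ordinal.{0}) (Φ : Set Ordinal.{0} → Ordinal.{0})
    (s : Set Ordinal.{0}) (i : Ordinal.{0}) : Ordinal.{0} :=
  succ (max (max (xx f Φ s i) (f i)) (Φ (xx f Φ s '' (s ∩ Set.Iic i))))

section

variable (f : Ordinal.{0} → Ordinal.{0}) (Φ : Set Ordinal.{0} → Ordinal.{0})

theorem xx_eq (s : Set Ordinal.{0}) (b : Ordinal.{0}) :
    xx f Φ s b = ⨆ i : ↥(s ∩ Set.Iio b), st f Φ s i.1 := by
  rw [xx]
  simp only [st, Set.image_eq_range]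

instance small_inter (s : Set Ordinal.{0}) (b : Ordinal.{0}) : Small.{0} ↥(s ∩ Set.Iio b) :=
  small_subset Set.inter_subset_right

theorem st_le {s : Set Ordinal.{0}} {i b : Ordinal.{0}} (hi : i ∈ s) (h : i < b) :
    st f Φ s i ≤ xx f Φ s b := by
  rw [xx_eq]
  exact Ordinal.le_iSup (fun i : ↥(s ∩ Set.Iio b) => st f Φ s i.1) ⟨i, hi, h⟩

theorem lt_xx {s : Set Ordinal.{0}} {β b : Ordinal.{0}} (h : β < xx f Φ s b) :
    ∃ i ∈ s, i < b ∧ β < st f Φ s i := by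
  rw [xx_eq, Ordinal.lt_iSup_iff] at h
  obtain ⟨i, hi⟩ := h
  exact ⟨i.1, i.2.1, i.2.2, hi⟩

theorem xx_congr {s s' : Set Ordinal.{0}} (b : Ordinal.{0})
    (h : s ∩ Set.Iio b = s' ∩ Set.Iio b) : xx f Φ s b = xx f Φ s' b := by
  induction b using WellFoundedLT.induction with
  | ind b ih =>
    have hmem : ∀ x < b, x ∈ s ↔ x ∈ s' := by
      intro x hx
      have h1 : x ∈ s ∩ Set.Iio b ↔ x ∈ s' ∩ Set.Iio b := by rw [h]
      exact ⟨fun h2 => (h1.1 ⟨h2, hx⟩).1, fun h2 => (h1.2 ⟨h2, hx⟩).1⟩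
    have hsub : ∀ i < b, s ∩ Set.Iio i = s' ∩ Set.Iio i := by
      intro i hi
      ext x
      constructor
      · rintro ⟨h1, h2⟩
        exact ⟨(hmem x (lt_trans h2 hi)).1 h1, h2⟩
      · rintro ⟨h1, h2⟩
        exact ⟨(hmem x (lt_trans h2 hi)).2 h1, h2⟩
    have hsub' : ∀ i < b, s ∩ Set.Iic i = s' ∩ Set.Iic i := by
      intro i hi
      ext x
      constructor
      · rintro ⟨h1, h2⟩
        exact ⟨(hmem x (lt_of_le_of_lt h2 hi)).1 h1, h2⟩
      · rintro ⟨h1, h2⟩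
        exact ⟨(hmem x (lt_of_le_of_lt h2 hi)).2 h1, h2⟩
    have hx : ∀ i < b, xx f Φ s i = xx f Φ s' i := fun i hi => ih i hi (hsub i hi)
    have hst : ∀ i ∈ s ∩ Set.Iio b, st f Φ s i = st f Φ s' i := by
      rintro i ⟨_, hi⟩
      have h1 : xx f Φ s '' (s ∩ Set.Iic i) = xx f Φ s' '' (s' ∩ Set.Iic i) := by
        rw [← hsub' i hi]
        exact Set.image_congr fun j hj => hx j (lt_of_le_of_lt hj.2 hi)
      rw [st, st, h1, hx i hi]
    rw [xx_eq, xx_eq, ← sSup_image' (s := s ∩ Set.Iio b) (f := st f Φ s),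
      ← sSup_image' (s := s' ∩ Set.Iio b) (f := st f Φ s'), ← h]
    congr 1
    exact Set.image_congr hst

theorem xx_lt {c : Cardinal.{0}} (hc : c.IsRegular) {t : Cardinal.{0}} (ht : t ≤ c)
    {s : Set Ordinal.{0}} (hs : #s < Cardinal.lift.{1} t) (hf : ∀ i ∈ s, f i < c.ord)
    (hΦ : ∀ r : Set Ordinal.{0}, r ⊆ Set.Iio c.ord → #r < Cardinal.lift.{1} t → Φ r < c.ord)
    (b : Ordinal.{0}) : xx f Φ s b < c.ord := by
  have hlim : IsSuccLimit c.ord := Cardinal.isSuccLimit_ord hc.aleph0_le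
  induction b using WellFoundedLT.induction with
  | ind b ih =>
    rw [xx_eq]
    refine sup_lt hc (lt_of_le_of_lt (Cardinal.mk_le_mk_of_subset Set.inter_subset_left)
      (hs.trans_le (Cardinal.lift_le.2 ht))) _ ?_
    rintro ⟨i, hi, hib⟩
    refine hlim.succ_lt (max_lt (max_lt (ih i hib) (hf i hi)) (hΦ _ ?_ ?_))
    · rintro _ ⟨j, hj, rfl⟩
      exact ih j (lt_of_le_of_lt hj.2 hib)
    · refine Cardinal.mk_image_le.trans_lt ?_
      exact lt_of_le_of_lt (Cardinal.mk_le_mk_of_subset Set.inter_subset_left) hs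

theorem st_lt {c : Cardinal.{0}} (hc : c.IsRegular) {t : Cardinal.{0}} (ht : t ≤ c)
    {s : Set Ordinal.{0}} (hs : #s < Cardinal.lift.{1} t) (hf : ∀ i ∈ s, f i < c.ord)
    (hΦ : ∀ r : Set Ordinal.{0}, r ⊆ Set.Iio c.ord → #r < Cardinal.lift.{1} t → Φ r < c.ord)
    {i : Ordinal.{0}} (hi : i ∈ s) : st f Φ s i < c.ord := by
  refine (st_le f Φ hi (lt_succ i)).trans_lt ?_
  exact xx_lt f Φ hc ht hs hf hΦ _

end

/-- the values at the top -/
noncomputable def tt (f : Ordinal.{0} → Ordinal.{0}) (Φ : Set Ordinal.{0} → Ordinal.{0})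
    (s : Set Ordinal.{0}) : Ordinal.{0} := ⨆ i : s, st f Φ s i.1

theorem tt_lt (f : Ordinal.{0} → Ordinal.{0}) (Φ : Set Ordinal.{0} → Ordinal.{0})
    {c : Cardinal.{0}} (hc : c.IsRegular) {t : Cardinal.{0}} (ht : t ≤ c)
    {s : Set Ordinal.{0}} (hs : #s < Cardinal.lift.{1} t) (hf : ∀ i ∈ s, f i < c.ord)
    (hΦ : ∀ r : Set Ordinal.{0}, r ⊆ Set.Iio c.ord → #r < Cardinal.lift.{1} t → Φ r < c.ord) :
    tt f Φ s < c.ord :=
  sup_lt hc (hs.trans_le (Cardinal.lift_le.2 ht)) _ fun i => st_lt f Φ hc ht hs hf hΦ i.2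

end ChainY

open ChainY in
theorem chain_of_fast (hTail : Stmt_Tail) (hC : Stmt_Cofinal) {lam κ θ : Cardinal.{0}}
    {μ : Ordinal.{0} → Cardinal.{0}} {F : Ordinal.{0} → Ordinal.{0} → Ordinal.{0}}
    (c : Ctx lam κ θ μ) (sc : Scale lam κ μ F) (Φk : Ordinal.{0} → Set Ordinal.{0} → Ordinal.{0})
    (hΦk : ∀ k < κ.ord, ∀ s : Set Ordinal.{0}, s ⊆ Set.Iio (succ (μ k)).ord →
      #s < Cardinal.lift.{1} θ → Φk k s < (succ (μ k)).ord) :
    ∃ Φ : Set Ordinal.{0} → Ordinal.{0},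
      (∀ s : Set Ordinal.{0}, s ⊆ Set.Iio (succ lam).ord → #s < Cardinal.lift.{1} θ →
        Φ s < (succ lam).ord) ∧
      ∀ γ < (succ lam).ord, ∀ δ : Ordinal.{0} → Ordinal.{0}, NSeq θ.ord γ δ → Fast Φ θ.ord δ →
        ∃ (Γ : Ordinal.{0} → Ordinal.{0}) (χ : Ordinal.{0} → Ordinal.{0} → Ordinal.{0}),
          Chain lam κ θ μ F γ δ Γ χ ∧
          ∀ k < κ.ord, Fast (Φk k) θ.ord (fun η => χ η k) := by
  classical
  have kpos : (0 : Ordinal.{0}) < κ.ord := c.kreg.ord_pos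
  have hth : ℵ₀ ≤ θ := c.treg.aleph0_le
  have hmu : ∀ k < κ.ord, ℵ₀ ≤ μ k := fun k hk => hth.trans (c.base k hk)
  have hlam : ℵ₀ ≤ lam := (hmu 0 kpos).trans (c.lt 0 kpos).le
  have rL : (succ lam).IsRegular := isRegular_succ hlam
  have rM : ∀ k < κ.ord, (succ (μ k)).IsRegular := fun k hk => isRegular_succ (hmu k hk)
  have tM : ∀ k < κ.ord, θ ≤ succ (μ k) := fun k hk => (c.base k hk).trans (le_succ _)
  have tlim : IsSuccLimit θ.ord := Cardinal.isSuccLimit_ord hth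
  -- the functions at the top
  have htt : ∀ s : Set Ordinal.{0}, s ⊆ Set.Iio (succ lam).ord → #s < Cardinal.lift.{1} θ →
      ∀ k < κ.ord, tt (fun β => F β k) (Φk k) s < (succ (μ k)).ord := by
    intro s hs hs2 k hk
    exact tt_lt _ _ (rM k hk) (tM k hk) hs2 (fun i hi => sc.lt i (hs hi) k hk)
      (fun r hr hr2 => hΦk k hk r hr hr2)
  have hex : ∀ s : Set Ordinal.{0}, ∃ a : Ordinal.{0}, a < (succ lam).ord ∧
      (s ⊆ Set.Iio (succ lam).ord → #s < Cardinal.lift.{1} θ →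
        ∀ᶠ k in CF κ.ord, tt (fun β => F β k) (Φk k) s < F a k) := by
    intro s
    by_cases h : s ⊆ Set.Iio (succ lam).ord ∧ #s < Cardinal.lift.{1} θ
    · obtain ⟨a, ha, ha2⟩ := hC lam κ θ μ F c sc _ (htt s h.1 h.2)
      exact ⟨a, ha, fun _ _ => ha2⟩
    · exact ⟨0, rL.ord_pos, fun h1 h2 => absurd ⟨h1, h2⟩ h⟩
  choose Φ hΦ1 hΦ2 using hex
  refine ⟨Φ, fun s _ _ => hΦ1 s, ?_⟩
  intro γ hγ δ hδ hfast
  set S : Set Ordinal.{0} := δ '' Set.Iio θ.ord with hS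
  have hδmono : ∀ i k, i ≤ k → k < θ.ord → δ i ≤ δ k := by
    intro i k hik hk
    rcases hik.eq_or_lt with rfl | h
    · exact le_rfl
    · exact (hδ.strict k hk i h).le
  have hδlt : ∀ i < θ.ord, ∀ k < θ.ord, δ i < δ k → i < k := by
    intro i hi k hk h
    by_contra hcon
    exact absurd (hδmono k i (not_lt.1 hcon) hi) (not_le.2 h)
  have hδle : ∀ i < θ.ord, ∀ k < θ.ord, δ i ≤ δ k → i ≤ k := by
    intro i hi k hk h
    by_contra hcon
    exact absurd (hδ.strict i hi k (not_le.1 hcon)) (not_lt.2 h)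
  have hδL : ∀ i < θ.ord, δ i < (succ lam).ord := fun i hi => (hδ.lt i hi).trans hγ
  -- initial segments
  let I : Ordinal.{0} → Set Ordinal.{0} := fun η => δ '' Set.Iic η
  have hIsub : ∀ η < θ.ord, I η ⊆ Set.Iio (succ lam).ord := by
    rintro η hη _ ⟨i, hi, rfl⟩
    exact hδL i (lt_of_le_of_lt hi hη)
  have hIcard : ∀ η < θ.ord, #(I η) < Cardinal.lift.{1} θ := by
    intro η hη
    refine Cardinal.mk_image_le.trans_lt ?_
    have h1 : Set.Iic η = Set.Iio (succ η) := by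
      ext x
      exact (lt_succ_iff (a := x) (b := η)).symm
    rw [h1, Cardinal.mk_Iio_ordinal, Cardinal.lift_lt]
    exact lt_ord.1 (tlim.succ_lt hη)
  have hIS : ∀ η < θ.ord, ∀ i ≤ η, I η ∩ Set.Iio (δ i) = S ∩ Set.Iio (δ i) := by
    intro η hη i hi
    ext x
    constructor
    · rintro ⟨⟨j, hj, rfl⟩, h2⟩
      exact ⟨⟨j, lt_of_le_of_lt hj hη, rfl⟩, h2⟩
    · rintro ⟨⟨j, hj, rfl⟩, h2⟩
      exact ⟨⟨j, (hδlt j hj i (hi.trans_lt hη) h2).le.trans hi, rfl⟩, h2⟩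
  let χ : Ordinal.{0} → Ordinal.{0} → Ordinal.{0} := fun η k =>
    xx (fun β => F β k) (Φk k) S (δ η)
  have hχI : ∀ η < θ.ord, ∀ i ≤ η, ∀ k, χ i k = xx (fun β => F β k) (Φk k) (I η) (δ i) :=
    fun η hη i hi k => (xx_congr _ _ _ (hIS η hη i hi)).symm
  have hχlt : ∀ η < θ.ord, ∀ k < κ.ord, χ η k < (succ (μ k)).ord := by
    intro η hη k hk
    rw [hχI η hη η le_rfl k]
    exact xx_lt _ _ (rM k hk) (tM k hk) (hIcard η hη)
      (fun i hi => sc.lt i (hIsub η hη hi) k hk) (fun r hr hr2 => hΦk k hk r hr hr2) _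
  have hmemS : ∀ i < θ.ord, δ i ∈ S := fun i hi => ⟨i, hi, rfl⟩
  -- steps
  have hstep : ∀ i < θ.ord, ∀ η < θ.ord, i < η → ∀ k,
      st (fun β => F β k) (Φk k) S (δ i) ≤ χ η k := by
    intro i hi η hη h k
    exact st_le _ _ (hmemS i hi) (hδ.strict η hη i h)
  have hstepΓ : ∀ i < θ.ord, ∀ k, st (fun β => F β k) (Φk k) S (δ i) ≤
      xx (fun β => F β k) (Φk k) S γ := fun i hi k => st_le _ _ (hmemS i hi) (hδ.lt i hi)
  have hlt_st : ∀ i k, χ i k < st (fun β => F β k) (Φk k) S (δ i) := by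
    intro i k
    exact lt_succ_of_le ((le_max_left _ _).trans (le_max_left _ _))
  have hF_st : ∀ i k, F (δ i) k < st (fun β => F β k) (Φk k) S (δ i) := by
    intro i k
    exact lt_succ_of_le ((le_max_right _ _).trans (le_max_left _ _))
  have himg : ∀ i < θ.ord, ∀ k, xx (fun β => F β k) (Φk k) S '' (S ∩ Set.Iic (δ i)) =
      (fun η => χ η k) '' Set.Iic i := by
    intro i hi k
    ext x
    constructor
    · rintro ⟨_, ⟨⟨j, hj, rfl⟩, h2⟩, rfl⟩
      exact ⟨j, hδle j hj i hi h2, rfl⟩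
    · rintro ⟨j, hj, rfl⟩
      exact ⟨δ j, ⟨hmemS j (lt_of_le_of_lt hj hi), hδmono j i hj hi⟩, rfl⟩
  have hΦ_st : ∀ i < θ.ord, ∀ k, Φk k ((fun η => χ η k) '' Set.Iic i) <
      st (fun β => F β k) (Φk k) S (δ i) := by
    intro i hi k
    rw [← himg i hi k]
    exact lt_succ_of_le (le_max_right _ _)
  have hupper : ∀ b, ∀ k, ∀ β < xx (fun β => F β k) (Φk k) S b, ∃ i < θ.ord, δ i < b ∧
      β < st (fun β => F β k) (Φk k) S (δ i) := by
    intro b k β hβ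
    obtain ⟨_, ⟨i, hi, rfl⟩, h1, h2⟩ := lt_xx _ _ hβ
    exact ⟨i, hi, h1, h2⟩
  refine ⟨fun k => xx (fun β => F β k) (Φk k) S γ, χ, ⟨hγ, hδ, ?_, ?_, ?_, ?_⟩, ?_⟩
  · -- bound for the limit
    intro k hk
    rw [xx_eq]
    refine sup_lt (rM k hk) ?_ _ ?_
    · refine lt_of_le_of_lt (Cardinal.mk_le_mk_of_subset Set.inter_subset_left) ?_
      refine Cardinal.mk_image_le.trans_lt ?_
      rw [Cardinal.mk_Iio_ordinal, Cardinal.card_ord, Cardinal.lift_lt]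
      exact (c.base k hk).trans_lt (lt_succ _)
    · rintro ⟨_, ⟨i, hi, rfl⟩, -⟩
      exact (hstep i hi _ (tlim.succ_lt hi) (lt_succ i) k).trans_lt
        (hχlt _ (tlim.succ_lt hi) k hk)
  · -- the sequences
    intro k hk
    refine ⟨?_, ?_, ?_, ?_⟩
    · intro i hi
      exact (hlt_st i k).trans_le (hstepΓ i hi k)
    · intro i hi i' hi'
      exact (hlt_st i' k).trans_le (hstep i' (hi'.trans hi) i hi hi' k)
    · intro i hi hl β hβ
      obtain ⟨j, hj, hj1, hj2⟩ := hupper _ k β hβ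
      have hji : j < i := hδlt j hj i hi hj1
      exact ⟨succ j, hl.succ_lt hji,
        hj2.trans_le (hstep j hj _ (tlim.succ_lt hj) (lt_succ j) k)⟩
    · intro β hβ
      obtain ⟨j, hj, -, hj2⟩ := hupper _ k β hβ
      exact ⟨succ j, tlim.succ_lt hj,
        hj2.trans_le (hstep j hj _ (tlim.succ_lt hj) (lt_succ j) k)⟩
  · intro η hη k _
    exact (hF_st η k).trans_le (hstep η hη _ (tlim.succ_lt hη) (lt_succ η) k)
  · intro η hη
    have hsη : succ η < θ.ord := tlim.succ_lt hη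
    have h1 : Φ (I η) < δ (succ η) := hfast η hη
    obtain ⟨k₀, hk₀, hk⟩ := sc.inc _ (hδL _ hsη) _ h1
    filter_upwards [hΦ2 (I η) (hIsub η hη) (hIcard η hη), hTail κ.ord k₀ hk₀] with k e1 e2
    refine lt_trans ?_ (e1.trans (hk k e2.1.le e2.2.1))
    -- `χ η k` is less than the value at the top
    rw [hχI η hη η le_rfl k]
    have : Small.{0} ↥(I η) := by
      have : I η ⊆ Set.Iio (succ lam).ord := hIsub η hη
      exact small_subset this
    have h2 : st (fun β => F β k) (Φk k) (I η) (δ η) ≤ tt (fun β => F β k) (Φk k) (I η) :=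
      Ordinal.le_iSup (fun i : ↥(I η) => st (fun β => F β k) (Φk k) (I η) i.1)
        ⟨δ η, η, Set.mem_Iic.2 le_rfl, rfl⟩
    exact (lt_succ_of_le ((le_max_left _ _).trans (le_max_left _ _))).trans_le h2
  · intro k _ η hη
    exact (hΦ_st η hη k).trans_le (hstep η hη _ (tlim.succ_lt hη) (lt_succ η) k)

end Pool.FAS
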