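import Pool.Agent.FAT.Final
import Pool.Agent.FAT.Reduce
import Pool.Agent.FAT.WSq

/-!
MP_a44074_lc, project FAS: the strategic version (for the limits of sequences that are closed under a
given function `Φ`), definitions and general lemmas.
-/

set_option autoImplicit false

namespace Pool.FAS

open Ordinal Cardinal Order Set Pool.FAT

/-- The sequence `e` of length `o` is closed under `Φ`. -/
def Fast (Φ : Set Ordinal.{0} → Ordinal.{0}) (o : Ordinal.{0}) (e : Ordinal.{0} → Ordinal.{0}) :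
    Prop :=
  ∀ η < o, Φ (e '' Set.Iic η) < e (succ η)

/-- The strategic version for `μ` and `θ`. -/
def SV (μ θ : Cardinal.{0}) : Prop :=
  ∃ (d : Ordinal.{0} → Ordinal.{0} → Ordinal.{0}) (Φ : Set Ordinal.{0} → Ordinal.{0}),
    (∀ i < μ.ord.cof.ord, ∀ β < (succ μ).ord,
      #{α : Ordinal.{0} // α < β ∧ d α β ≤ i} < Cardinal.lift.{1} μ) ∧
    (∀ s : Set Ordinal.{0}, s ⊆ Set.Iio (succ μ).ord → #s < Cardinal.lift.{1} θ →
      Φ s < (succ μ).ord) ∧
    ∀ γ < (succ μ).ord, ∀ e : Ordinal.{0} → Ordinal.{0}, NSeq θ.ord γ e → Fast Φ θ.ord e →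
      ∃ D : Set Ordinal.{0}, IsClubIn D γ ∧ ∀ β ∈ D, β.cof = μ.ord.cof →
        ∃ i < μ.ord.cof.ord, ∀ α ∈ D, α < β → α.cof = μ.ord.cof → d α β ≤ i

/-- a nonzero ordinal with elements strictly between is a limit -/
theorem lim_of {β : Ordinal.{0}} (h0 : β ≠ 0) (h : ∀ δ < β, ∃ c, δ < c ∧ c < β) :
    IsSuccLimit β := by
  rw [Ordinal.isSuccLimit_iff]
  refine ⟨h0, isSuccPrelimit_of_succ_lt fun a ha => ?_⟩
  obtain ⟨c, h1, h2⟩ := h a ha
  exact (succ_le_of_lt h1).trans_lt h2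

/-- the closure points form a club -/
theorem isClubIn_CP (hTail : Stmt_Tail) (hCofPts : Stmt_CofPts) {c : Cardinal.{0}}
    (hc : c.IsRegular) (hunc : ℵ₀ < c) {h : Ordinal.{0} → Ordinal.{0}}
    (hh : ∀ η < c.ord, h η < c.ord) : IsClubIn (CP c.ord h) c.ord := by
  refine ⟨fun η hη => hη.1, ?_, ?_⟩
  · intro β hβ
    have h1 : ∀ᶠ η in CF c.ord, η ∈ CP c.ord h := eventually_CF.2 ⟨h, hh, fun η hη => hη⟩
    obtain ⟨k, -, hk1, hk2⟩ := ((hCofPts c ℵ₀ hc Cardinal.isRegular_aleph0 hunc).and_eventually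
      (h1.and (hTail c.ord β hβ))).exists
    exact ⟨k, hk1, hk2.1⟩
  · intro β hβ h0 hβ'
    refine ⟨hβ, lim_of h0 fun δ hδ => ?_, fun δ hδ => ?_⟩
    · obtain ⟨c', _, h4, h5⟩ := hβ' δ hδ
      exact ⟨c', h4, h5⟩
    · obtain ⟨c', hc', h4, h5⟩ := hβ' δ hδ
      exact (hc'.2.2 δ h4).trans h5

/-- the image of a club under a continuous sequence -/
theorem isClubIn_image {o γ : Ordinal.{0}} {e : Ordinal.{0} → Ordinal.{0}} (he : NSeq o γ e)
    {C : Set Ordinal.{0}} (hC : IsClubIn C o) : IsClubIn (e '' C) γ := by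
  have hmono : ∀ i k, i ≤ k → k < o → e i ≤ e k := by
    intro i k hik hk
    rcases hik.eq_or_lt with rfl | h
    · exact le_rfl
    · exact (he.strict k hk i h).le
  refine ⟨?_, ?_, ?_⟩
  · rintro _ ⟨k, hk, rfl⟩
    exact he.lt k (hC.1 hk)
  · intro β hβ
    obtain ⟨k, hk, hk2⟩ := he.cofinal β hβ
    obtain ⟨i, hi, hi2⟩ := hC.2.1 k hk
    exact ⟨_, ⟨i, hi, rfl⟩, hk2.trans_le (hmono k i hi2.le (hC.1 hi))⟩
  · intro β hβ hβ0 hlim
    obtain ⟨k₁, hk₁, hk₁'⟩ := he.cofinal β hβ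
    set s : Set Ordinal.{0} := {k | k < o ∧ β ≤ e k} with hs
    have hne : s.Nonempty := ⟨k₁, hk₁, hk₁'.le⟩
    obtain ⟨hk, hkβ⟩ : sInf s ∈ s := csInf_mem hne
    set k := sInf s with hkdef
    have hlt : ∀ i < k, e i < β := by
      intro i hi
      by_contra hcon
      have : i ∈ s := ⟨hi.trans hk, not_lt.1 hcon⟩
      exact absurd (csInf_le' this) (not_le.2 hi)
    have hidx : ∀ i ∈ C, e i < β → i < k := by
      intro i hi h
      by_contra hcon
      exact absurd (hkβ.trans (hmono k i (not_lt.1 hcon) (hC.1 hi))) (not_le.2 h)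
    have hCk : ∀ i < k, ∃ c' ∈ C, i < c' ∧ c' < k := by
      intro i hi
      obtain ⟨_, ⟨c', hc', rfl⟩, h1, h2⟩ := hlim _ (hlt i hi)
      refine ⟨c', hc', ?_, hidx c' hc' h2⟩
      by_contra hcon
      exact absurd (hmono c' i (not_lt.1 hcon) (hi.trans hk)) (not_le.2 h1)
    have hk0 : k ≠ 0 := by
      intro h0
      obtain ⟨_, ⟨c', hc', rfl⟩, -, h2⟩ := hlim 0 (pos_iff_ne_zero.2 hβ0)
      have := hidx c' hc' h2
      rw [h0] at this
      exact not_lt_zero this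
    have hkC : k ∈ C := hC.2.2 k hk hk0 hCk
    have hkl : IsSuccLimit k := lim_of hk0 fun i hi => by
      obtain ⟨c', -, h1, h2⟩ := hCk i hi
      exact ⟨c', h1, h2⟩
    refine ⟨k, hkC, le_antisymm ?_ hkβ⟩
    by_contra hcon
    rw [not_le] at hcon
    obtain ⟨i, hi, hi2⟩ := he.cont k hk hkl β hcon
    exact absurd hi2 (not_lt.2 (hlt i hi).le)

/-- the cofinality of the points of a sequence -/
theorem cof_eq (hC : Stmt_CofEq) {o ξ : Ordinal.{0}} {e : Ordinal.{0} → Ordinal.{0}}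
    (h : NSeq o ξ e) {i : Ordinal.{0}} (hi : i < o) (hl : IsSuccLimit i) :
    (e i).cof = i.cof :=
  hC i (e i) e hl (fun i' hi' => h.strict i hi i' hi')
    (fun i' hi' i'' hi'' => h.strict i' (hi'.trans hi) i'' hi'') (fun β hβ => h.cont i hi hl β hβ)

end Pool.FAS
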