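import Pool.Agent.FAS.Defs
import Pool.Agent.FAT.Filt

/-!
MP_a44074_lc, project FAS: the strategic version at a singular cardinal gives a stationary set in the
ideal.
-/

set_option autoImplicit false

namespace Pool.FAS

open Ordinal Cardinal Order Set Pool.FAT

/-- The points `γ` of cofinality `θ` with a stationary set of points which are caught by `X`. -/
def TX (lam θ : Cardinal.{0}) (X : Ordinal.{0} → Set Ordinal.{0}) : Set Ordinal.{0} :=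
  {γ | γ < (succ lam).ord ∧ γ.cof = θ ∧ ∃ Sg : Set Ordinal.{0},
    (∀ α ∈ Sg, α < γ ∧ α.cof = lam.ord.cof) ∧
    (∀ D : Set Ordinal.{0}, IsClubIn D γ → ∃ c ∈ D, c ∈ Sg) ∧
    ∀ α ∈ Sg, ∀ β ∈ Sg, α < β → α ∈ X β}

/-- The conclusion from small sets that catch stationary sets. -/
theorem fat_of_X (hTrans : Stmt_Trans) {lam θ : Cardinal.{0}} (h1 : ℵ₀ ≤ lam.ord.cof)
    (hlam : ℵ₀ ≤ lam) (hθ : ℵ₀ < θ) {ρ : Ordinal.{0} → Cardinal.{0}}
    (hmono : ∀ i j, i ≤ j → j < lam.ord.cof.ord → ρ i ≤ ρ j)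
    (hinf : ∀ k < lam.ord.cof.ord, ℵ₀ ≤ ρ k) (hlt : ∀ k < lam.ord.cof.ord, ρ k < lam)
    (hcofl : ∀ ν < lam, ∃ k < lam.ord.cof.ord, ν < ρ k)
    (X : Ordinal.{0} → Set Ordinal.{0}) {ρ₀ : Cardinal.{0}} (hρ₀ : ρ₀ < lam)
    (hX : ∀ β < (succ lam).ord, X β ⊆ Set.Iio β ∧ #(X β) ≤ Cardinal.lift.{1} ρ₀)
    (hT : ∀ E : Set Ordinal.{0}, IsClubIn E (succ lam).ord → ∃ x ∈ E, x ∈ TX lam θ X) :
    Fat lam θ := by
  have hreg : (succ lam).IsRegular := isRegular_succ hlam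
  have hK0 : (0 : Ordinal.{0}) < lam.ord.cof.ord := by
    have := (Cardinal.isSuccLimit_ord h1).bot_lt
    simpa using this
  obtain ⟨A, f⟩ := hTrans lam lam.ord.cof (fun k => max (ρ k) ρ₀) X hlam h1
    (fun i j hij hj => max_le_max_right _ (hmono i j hij hj))
    (fun k hk => (hinf k hk).trans (le_max_left _ _))
    (fun x hx => by
      obtain ⟨k, hk, hk2⟩ := hcofl x hx
      exact ⟨k, hk, hk2.trans_le (le_max_left _ _)⟩)
    (fun β hβ => ⟨(hX β hβ).1, fun k _ => (hX β hβ).2.trans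
      (Cardinal.lift_le.2 (le_max_right _ _))⟩)
  refine ⟨TX lam θ X, ?_, hT, Final.dd lam.ord.cof A, ?_, ?_, ?_, Set.Iio (succ lam).ord,
    Final.isClubIn_Iio hreg.aleph0_le, ?_⟩
  · rintro γ ⟨g1, g2, Sg, g3, g4, -⟩
    refine ⟨g1, ?_, g2, fun D hD => ?_⟩
    · rw [g2]
      exact hθ
    · obtain ⟨x, hx, hx2⟩ := g4 D hD
      exact ⟨x, hx, (g3 x hx2).1, (g3 x hx2).2⟩
  · intro α β h1 h2
    exact (Final.dd_mem f h1 h2).1
  · intro α β γ h1 h2 h3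
    obtain ⟨a1, a2⟩ := Final.dd_mem f h1 (h2.trans h3)
    obtain ⟨b1, b2⟩ := Final.dd_mem f h2 h3
    have hm : max (Final.dd lam.ord.cof A α β) (Final.dd lam.ord.cof A β γ) <
        lam.ord.cof.ord := max_lt a1 b1
    refine Final.dd_le hm ?_
    exact f.trans γ h3 _ hm β (f.mono γ h3 _ _ (le_max_right _ _) hm b2)
      (f.mono β (h2.trans h3) _ _ (le_max_left _ _) hm a2)
  · intro i hi β hβ
    refine lt_of_le_of_lt ?_ (Cardinal.lift_lt.2 (max_lt (hlt i hi) hρ₀))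
    refine le_trans ?_ (f.card β hβ i hi)
    refine Cardinal.mk_le_mk_of_subset ?_
    rintro α ⟨h1, h2⟩
    obtain ⟨a1, a2⟩ := Final.dd_mem f h1 hβ
    exact f.mono β hβ _ _ h2 hi a2
  · rintro γ ⟨g1, g2, Sg, g3, g4, g5⟩ - -
    refine ⟨Sg, g3, g4, 0, hK0, ?_⟩
    intro α hα β hβ h
    exact Final.dd_le hK0 (f.base β ((g3 β hβ).1.trans g1) 0 hK0 (g5 α hα β hβ h))

namespace FatX

/-- The sequence closed under `h` and `Φ`. -/
noncomputable def zz (h : Ordinal.{0} → Ordinal.{0}) (Φ : Set Ordinal.{0} → Ordinal.{0})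
    (η : Ordinal.{0}) : Ordinal.{0} :=
  ⨆ i : Set.Iio η, succ (max (max (zz h Φ i.1) (h (zz h Φ i.1)))
    (Φ (Set.range fun j : Set.Iic i.1 => zz h Φ j.1)))
termination_by η
decreasing_by
  · exact i.2
  · exact lt_of_le_of_lt j.2 i.2

/-- one step -/
noncomputable def zt (h : Ordinal.{0} → Ordinal.{0}) (Φ : Set Ordinal.{0} → Ordinal.{0})
    (i : Ordinal.{0}) : Ordinal.{0} :=
  succ (max (max (zz h Φ i) (h (zz h Φ i))) (Φ (zz h Φ '' Set.Iic i)))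

variable (h : Ordinal.{0} → Ordinal.{0}) (Φ : Set Ordinal.{0} → Ordinal.{0})

theorem zz_eq (η : Ordinal.{0}) : zz h Φ η = ⨆ i : Set.Iio η, zt h Φ i.1 := by
  rw [zz]
  simp only [zt, Set.image_eq_range]

theorem zt_le {i η : Ordinal.{0}} (hi : i < η) : zt h Φ i ≤ zz h Φ η := by
  rw [zz_eq]
  exact Ordinal.le_iSup (fun i : Set.Iio η => zt h Φ i.1) ⟨i, hi⟩

theorem lt_zz {β η : Ordinal.{0}} (hβ : β < zz h Φ η) : ∃ i < η, β < zt h Φ i := by
  rw [zz_eq, Ordinal.lt_iSup_iff] at hβ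
  obtain ⟨i, hi⟩ := hβ
  exact ⟨i.1, i.2, hi⟩

theorem zz_lt_zt (i : Ordinal.{0}) : zz h Φ i < zt h Φ i :=
  lt_succ_of_le ((le_max_left _ _).trans (le_max_left _ _))

theorem h_lt_zt (i : Ordinal.{0}) : h (zz h Φ i) < zt h Φ i :=
  lt_succ_of_le ((le_max_right _ _).trans (le_max_left _ _))

theorem Φ_lt_zt (i : Ordinal.{0}) : Φ (zz h Φ '' Set.Iic i) < zt h Φ i :=
  lt_succ_of_le (le_max_right _ _)

theorem zz_lt {c θ : Cardinal.{0}} (hc : c.IsRegular) (hθ : ℵ₀ ≤ θ) (hθc : θ < c)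
    (hh : ∀ η < c.ord, h η < c.ord)
    (hΦ : ∀ s : Set Ordinal.{0}, s ⊆ Set.Iio c.ord → #s < Cardinal.lift.{1} θ → Φ s < c.ord)
    (η : Ordinal.{0}) (hη : η ≤ θ.ord) : zz h Φ η < c.ord := by
  have hlim : IsSuccLimit c.ord := Cardinal.isSuccLimit_ord hc.aleph0_le
  have tlim : IsSuccLimit θ.ord := Cardinal.isSuccLimit_ord hθ
  induction η using WellFoundedLT.induction with
  | ind η ih =>
    rw [zz_eq]
    apply Ordinal.lift_iSup_lt_of_lt_cof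
    · rw [← lift_cof, hc.cof_ord, Cardinal.mk_Iio_ordinal, Cardinal.lift_lift, Cardinal.lift_lt]
      exact (Cardinal.lt_ord.1 (hη.trans_lt (Cardinal.ord_lt_ord.2 hθc)))
    · rintro ⟨i, hi⟩
      have hi' : i < η := hi
      have hiθ : i < θ.ord := hi'.trans_le hη
      have h1 := ih i hi' hiθ.le
      refine hlim.succ_lt (max_lt (max_lt h1 (hh _ h1)) (hΦ _ ?_ ?_))
      · rintro _ ⟨j, hj, rfl⟩
        exact ih j (lt_of_le_of_lt hj hi') ((lt_of_le_of_lt hj hiθ).le)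
      · refine Cardinal.mk_image_le.trans_lt ?_
        have h2 : Set.Iic i = Set.Iio (succ i) := by
          ext x
          exact (lt_succ_iff (a := x) (b := i)).symm
        rw [h2, Cardinal.mk_Iio_ordinal, Cardinal.lift_lt]
        exact lt_ord.1 (tlim.succ_lt hiθ)

theorem nseq {θ : Cardinal.{0}} (hθ : ℵ₀ ≤ θ) : NSeq θ.ord (zz h Φ θ.ord) (zz h Φ) := by
  have tlim : IsSuccLimit θ.ord := Cardinal.isSuccLimit_ord hθ
  refine ⟨?_, ?_, ?_, ?_⟩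
  · intro i hi
    exact (zz_lt_zt h Φ i).trans_le (zt_le h Φ hi)
  · intro i _ i' hi'
    exact (zz_lt_zt h Φ i').trans_le (zt_le h Φ hi')
  · intro i _ hl β hβ
    obtain ⟨j, hj, hj2⟩ := lt_zz h Φ hβ
    exact ⟨succ j, hl.succ_lt hj, hj2.trans_le (zt_le h Φ (lt_succ j))⟩
  · intro β hβ
    obtain ⟨j, hj, hj2⟩ := lt_zz h Φ hβ
    exact ⟨succ j, tlim.succ_lt hj, hj2.trans_le (zt_le h Φ (lt_succ j))⟩

theorem fast (o : Ordinal.{0}) : Fast Φ o (zz h Φ) := by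
  intro η _
  exact (Φ_lt_zt h Φ η).trans_le (zt_le h Φ (lt_succ η))

end FatX

open FatX in
/-- The strategic version gives a stationary set in the ideal. -/
theorem fat_of_SV (hMono : Stmt_Mono) (hCompl : Stmt_Compl) (hCofPts : Stmt_CofPts)
    (hSeq : Stmt_Seq) (hCofEq : Stmt_CofEq) (hPull : Stmt_Pull) (hTrans : Stmt_Trans)
    {lam θ : Cardinal.{0}} (h1 : ℵ₀ ≤ lam.ord.cof) (h5 : θ.IsRegular)
    (h6 : lam.ord.cof < θ) (h7 : θ < lam) (hSV : SV lam θ) : Fat lam θ := by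
  classical
  have hθ0 : ℵ₀ ≤ θ := h5.aleph0_le
  have hθu : ℵ₀ < θ := h1.trans_lt h6
  have hlam : ℵ₀ ≤ lam := hθ0.trans h7.le
  have hsing : IsSingular lam := by
    refine IsSingular.of_not_isRegular hlam fun h => ?_
    exact (h6.trans h7).ne h.cof_ord
  have hs : ∀ ν < lam, succ ν < lam := fun ν hν => hsing.isSuccLimit.succ_lt hν
  have hκreg : lam.ord.cof.IsRegular := Cardinal.isRegular_cof (Cardinal.isSuccLimit_ord hlam)
  have hKlim : IsSuccLimit lam.ord.cof.ord := Cardinal.isSuccLimit_ord h1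
  have hLreg : (succ lam).IsRegular := isRegular_succ hlam
  have tlim : IsSuccLimit θ.ord := Cardinal.isSuccLimit_ord hθ0
  obtain ⟨e₀, he₀⟩ := hSeq lam.ord h1
  let ρ : Ordinal.{0} → Cardinal.{0} := Reduce.mu θ e₀
  have hρmono : ∀ i j, i ≤ j → j < lam.ord.cof.ord → ρ i ≤ ρ j := by
    intro i j hij _
    rcases hij.eq_or_lt with rfl | h
    · exact le_rfl
    · exact (Reduce.lt_mu θ e₀ h).le
  have hρinf : ∀ k < lam.ord.cof.ord, ℵ₀ ≤ ρ k := fun k _ => hθ0.trans (Reduce.base_mu θ e₀ k)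
  have hρlt : ∀ k < lam.ord.cof.ord, ρ k < lam := fun k hk => Reduce.mu_lt hs h7 he₀.lt k hk
  have hρcof : ∀ ν < lam, ∃ k < lam.ord.cof.ord, ν < ρ k := by
    intro ν hν
    obtain ⟨i, hi, hi2⟩ := he₀.cofinal ν.ord (Cardinal.ord_lt_ord.2 hν)
    refine ⟨succ i, hKlim.succ_lt hi, ?_⟩
    refine lt_of_lt_of_le ?_ (Reduce.le_mu θ e₀ (lt_succ i))
    refine lt_of_le_of_lt ?_ (lt_succ _)
    exact (Cardinal.ord_le.1 hi2.le).trans (le_max_right _ _)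
  obtain ⟨d, Φ, hd, hΦ, hclub⟩ := hSV
  let X : Ordinal.{0} → Ordinal.{0} → Ordinal.{0} → Set Ordinal.{0} := fun i ν β =>
    {α | α < β ∧ d α β ≤ i ∧
      #{α : Ordinal.{0} // α < β ∧ d α β ≤ i} ≤ Cardinal.lift.{1} (ρ ν)}
  have hXcard : ∀ i ν β, X i ν β ⊆ Set.Iio β ∧ #(X i ν β) ≤ Cardinal.lift.{1} (ρ ν) := by
    intro i ν β
    refine ⟨fun α hα => hα.1, ?_⟩
    by_cases h : #{α : Ordinal.{0} // α < β ∧ d α β ≤ i} ≤ Cardinal.lift.{1} (ρ ν)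
    · refine le_trans (Cardinal.mk_le_mk_of_subset ?_) h
      rintro α ⟨ha, hb, -⟩
      exact ⟨ha, hb⟩
    · have : X i ν β = ∅ := by
        ext α
        constructor
        · rintro ⟨-, -, h'⟩
          exact absurd h' h
        · intro h'
          exact absurd h' (Set.notMem_empty α)
      rw [this]
      simp
  -- some pair of parameters works at stationarily many points
  obtain ⟨i, hi, ν, hν, hT⟩ : ∃ i < lam.ord.cof.ord, ∃ ν < lam.ord.cof.ord,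
      ∀ E : Set Ordinal.{0}, IsClubIn E (succ lam).ord → ∃ x ∈ E, x ∈ TX lam θ (X i ν) := by
    by_contra hcon
    push Not at hcon
    have h1' : ∀ p : Set.Iio lam.ord.cof.ord × Set.Iio lam.ord.cof.ord,
        ∃ E : Set Ordinal.{0}, IsClubIn E (succ lam).ord ∧
          ∀ x ∈ E, x ∉ TX lam θ (X p.1.1 p.2.1) :=
      fun p => hcon p.1.1 p.1.2 p.2.1 p.2.2
    choose E hE hE2 using h1'
    have hcard : #(Set.Iio lam.ord.cof.ord × Set.Iio lam.ord.cof.ord) =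
        Cardinal.lift.{1} lam.ord.cof := by
      have h2 : #(Set.Iio lam.ord.cof.ord) = Cardinal.lift.{1} lam.ord.cof := by
        rw [Cardinal.mk_Iio_ordinal, Cardinal.card_ord]
      rw [Cardinal.mk_prod, Cardinal.lift_id, h2]
      exact Cardinal.mul_eq_self (Cardinal.aleph0_le_lift.2 h1)
    have h2 : ∀ p, ∀ᶠ η in CF (succ lam).ord, η ∈ E p := by
      intro p
      have := hPull (succ lam) (succ lam).ord (fun i => i) (E p) hLreg
        (Final.nseq_id hLreg.aleph0_le) (hE p)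
      exact this.mono fun η h => h.2
    have h3 := hCompl (succ lam) hLreg (Set.Iio lam.ord.cof.ord × Set.Iio lam.ord.cof.ord) (by
      rw [hcard, Cardinal.lift_lt]
      exact (h6.trans h7).trans (lt_succ lam)) (fun p η => η ∈ E p) h2
    obtain ⟨h, hh1, hh2, hh3⟩ := hMono (succ lam) hLreg _ h3
    have hγ : zz h Φ θ.ord < (succ lam).ord :=
      zz_lt h Φ hLreg hθ0 (h7.trans (lt_succ lam)) hh1 hΦ θ.ord le_rfl
    have he := nseq h Φ hθ0
    set γ := zz h Φ θ.ord with hγdef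
    have hγCP : γ ∈ CP (succ lam).ord h := by
      refine ⟨hγ, lim_of ?_ fun δ hδ => ?_, fun δ hδ => ?_⟩
      · exact ((zero_le (a := zz h Φ 0)).trans_lt (he.lt 0 h5.ord_pos)).ne'
      · obtain ⟨i, hi, hi2⟩ := he.cofinal δ hδ
        exact ⟨_, hi2, he.lt i hi⟩
      · obtain ⟨i, hi, hi2⟩ := he.cofinal δ hδ
        exact (hh2 _ _ hi2.le).trans_lt ((h_lt_zt h Φ i).trans_le (zt_le h Φ hi))
    obtain ⟨D, hD, hD2⟩ := hclub γ hγ (zz h Φ) he (fast h Φ _)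
    let Q : (Set.Iio lam.ord.cof.ord × Set.Iio lam.ord.cof.ord) → Ordinal.{0} → Prop :=
      fun p ξ => ξ < θ.ord ∧ ξ.cof = lam.ord.cof ∧ IsSuccLimit ξ ∧ zz h Φ ξ ∈ D ∧
        (∀ α ∈ D, α < zz h Φ ξ → α.cof = lam.ord.cof → d α (zz h Φ ξ) ≤ p.1.1) ∧
        #{α : Ordinal.{0} // α < zz h Φ ξ ∧ d α (zz h Φ ξ) ≤ p.1.1} ≤
          Cardinal.lift.{1} (ρ p.2.1)
    have hgood : ∃ᶠ ξ in CF θ.ord, ∃ p, Q p ξ := by
      have h4 : ∀ᶠ ξ in CF θ.ord, ξ < θ.ord ∧ IsSuccLimit ξ :=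
        eventually_CF.2 ⟨id, fun _ h => h, fun ξ hξ => ⟨hξ.1, hξ.2.1⟩⟩
      refine ((hCofPts θ lam.ord.cof h5 hκreg h6).and_eventually
        (h4.and (hPull θ γ (zz h Φ) D h5 he hD))).mono ?_
      rintro ξ ⟨hξc, ⟨hξ, hξl⟩, -, hξD⟩
      have hc : (zz h Φ ξ).cof = lam.ord.cof := by
        rw [cof_eq hCofEq he hξ hξl]
        exact hξc
      obtain ⟨i, hi, hi2⟩ := hD2 _ hξD hc
      obtain ⟨ν', hν', he'⟩ := Cardinal.lt_lift_iff.1
        (hd i hi (zz h Φ ξ) ((he.lt ξ hξ).trans hγ))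
      obtain ⟨ν, hν, hν2⟩ := hρcof ν' hν'
      refine ⟨(⟨i, hi⟩, ⟨ν, hν⟩), hξ, hξc, hξl, hξD, hi2, ?_⟩
      rw [← he', Cardinal.lift_le]
      exact hν2.le
    obtain ⟨p, hp⟩ : ∃ p, ∃ᶠ ξ in CF θ.ord, Q p ξ := by
      by_contra hcon2
      push Not at hcon2
      have h4 := hCompl θ h5 (Set.Iio lam.ord.cof.ord × Set.Iio lam.ord.cof.ord) (by
        rw [hcard, Cardinal.lift_lt]
        exact h6) (fun p ξ => ¬ Q p ξ) (fun p => hcon2 p)
      refine hgood (h4.mono ?_)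
      rintro ξ h5 ⟨p, hp⟩
      exact h5 p hp
    refine hE2 p γ (hh3 γ hγCP p) ⟨hγ, ?_, zz h Φ '' {ξ | Q p ξ}, ?_, ?_, ?_⟩
    · rw [hCofEq θ.ord γ (zz h Φ) tlim he.lt he.strict he.cofinal]
      exact h5.cof_ord
    · rintro _ ⟨ξ, hξ, rfl⟩
      refine ⟨he.lt ξ hξ.1, ?_⟩
      rw [cof_eq hCofEq he hξ.1 hξ.2.2.1]
      exact hξ.2.1
    · intro D' hD'
      obtain ⟨ξ, h8, h9⟩ := (hp.and_eventually (hPull θ γ (zz h Φ) D' h5 he hD')).exists
      exact ⟨zz h Φ ξ, h9.2, ξ, h8, rfl⟩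
    · rintro _ ⟨ξ', hξ', rfl⟩ _ ⟨ξ, hξ, rfl⟩ hlt
      refine ⟨hlt, hξ.2.2.2.2.1 _ hξ'.2.2.2.1 hlt ?_, hξ.2.2.2.2.2⟩
      rw [cof_eq hCofEq he hξ'.1 hξ'.2.2.1]
      exact hξ'.2.1
  exact fat_of_X hTrans h1 hlam hθu hρmono hρinf hρlt hρcof (X i ν) (hρlt ν hν)
    (fun β _ => hXcard i ν β) hT

end Pool.FAS
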