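import Pool.Agent.FAS.Transfer
import Pool.Agent.FAS.Fat
import Pool.Agent.FAT.WSq
import Pool.Agent.FAT.Lift

/-!
MP_a44074_lc, project FAS: sufficient conditions for the strategic version, and the reduction to
smaller cardinals.
-/

set_option autoImplicit false

namespace Pool.FAS

open Ordinal Cardinal Order Set Pool.FAT

/-- The club version implies the strategic version. -/
theorem sv_of_clubGood (hCofEq : Stmt_CofEq) {μ θ : Cardinal.{0}} (h5 : θ.IsRegular)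
    (h : ClubGood μ θ) : SV μ θ := by
  obtain ⟨d, h1, h2⟩ := h
  refine ⟨d, fun _ => 0, h1, fun s _ _ => ?_, ?_⟩
  · rw [← Cardinal.ord_zero, Cardinal.ord_lt_ord]
    exact (zero_le (a := μ)).trans_lt (lt_succ _)
  · intro γ hγ e he _
    refine h2 γ hγ ?_
    rw [hCofEq θ.ord γ e (Cardinal.isSuccLimit_ord h5.aleph0_le) he.lt he.strict he.cofinal]
    exact h5.cof_ord

/-- A cofinal sequence of cardinals. -/
theorem exists_rho (hSeq : Stmt_Seq) {lam θ : Cardinal.{0}} (h1 : ℵ₀ ≤ lam.ord.cof)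
    (h2 : lam.ord.cof < lam) (hθ0 : ℵ₀ ≤ θ) (h7 : θ < lam) :
    ∃ ρ : Ordinal.{0} → Cardinal.{0},
      (∀ i j, i ≤ j → j < lam.ord.cof.ord → ρ i ≤ ρ j) ∧
      (∀ k < lam.ord.cof.ord, ℵ₀ ≤ ρ k) ∧ (∀ k < lam.ord.cof.ord, ρ k < lam) ∧
      ∀ ν < lam, ∃ k < lam.ord.cof.ord, ν < ρ k := by
  have hlam : ℵ₀ ≤ lam := hθ0.trans h7.le
  have hsing : IsSingular lam := by
    refine IsSingular.of_not_isRegular hlam fun h => ?_
    exact h2.ne h.cof_ord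
  have hs : ∀ ν < lam, succ ν < lam := fun ν hν => hsing.isSuccLimit.succ_lt hν
  have hKlim : IsSuccLimit lam.ord.cof.ord := Cardinal.isSuccLimit_ord h1
  obtain ⟨e₀, he₀⟩ := hSeq lam.ord h1
  refine ⟨Reduce.mu θ e₀, ?_, fun k _ => hθ0.trans (Reduce.base_mu θ e₀ k),
    fun k hk => Reduce.mu_lt hs h7 he₀.lt k hk, ?_⟩
  · intro i j hij _
    rcases hij.eq_or_lt with rfl | h
    · exact le_rfl
    · exact (Reduce.lt_mu θ e₀ h).le
  · intro ν hν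
    obtain ⟨i, hi, hi2⟩ := he₀.cofinal ν.ord (Cardinal.ord_lt_ord.2 hν)
    refine ⟨succ i, hKlim.succ_lt hi, ?_⟩
    refine lt_of_lt_of_le ?_ (Reduce.le_mu θ e₀ (lt_succ i))
    refine lt_of_le_of_lt ?_ (lt_succ _)
    exact (Cardinal.ord_le.1 hi2.le).trans (le_max_right _ _)

/-- The principle `WS` implies the club version for singular cardinals. -/
theorem clubGood_of_WS (hSeq : Stmt_Seq) {μ θ : Cardinal.{0}} (h1 : ℵ₀ ≤ μ.ord.cof)
    (hθ0 : ℵ₀ ≤ θ) (h6 : μ.ord.cof < θ) (h7 : θ < μ) (h : WS μ θ) : ClubGood μ θ := by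
  classical
  obtain ⟨C, hC1, hC2⟩ := h
  obtain ⟨ρ, hmono, hinf, hlt, hcofl⟩ := exists_rho hSeq h1 (h6.trans h7) hθ0 h7
  let S : Ordinal.{0} → Ordinal.{0} → Set Ordinal.{0} := fun α β =>
    {i | i < μ.ord.cof.ord ∧ ∃ j < (ρ i).ord, #(C β j) ≤ Cardinal.lift.{1} (ρ i) ∧ α ∈ C β j}
  refine ⟨fun α β => if (S α β).Nonempty then sInf (S α β) else μ.ord.cof.ord, ?_, ?_⟩
  · intro i hi β _
    have hsub : {α : Ordinal.{0} | α < β ∧
        (if (S α β).Nonempty then sInf (S α β) else μ.ord.cof.ord) ≤ i} ⊆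
        XCardX.YY (fun _ => C) (ρ i) 0 β := by
      rintro α ⟨hα, h1⟩
      by_cases hne : (S α β).Nonempty
      · rw [if_pos hne] at h1
        obtain ⟨h2, j, hj, hj2, hj3⟩ := csInf_mem hne
        have h4 := hmono _ i h1 hi
        exact ⟨j, hj.trans_le (Cardinal.ord_le_ord.2 h4), hj2.trans (Cardinal.lift_le.2 h4), hj3⟩
      · rw [if_neg hne] at h1
        exact absurd hi (not_lt.2 h1)
    refine lt_of_le_of_lt ((Cardinal.mk_le_mk_of_subset hsub).trans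
      (XCardX.mk_YY_le (fun _ => C) (hinf i hi) 0 β)) (Cardinal.lift_lt.2 (hlt i hi))
  · intro γ hγ hγc
    obtain ⟨D, hD, hD2⟩ := hC2 γ hγ hγc
    refine ⟨D, hD, fun β hβ hβc => ?_⟩
    obtain ⟨j, hj, hj2⟩ := hD2 β hβ hβc
    obtain ⟨i, hi, hi2⟩ := hcofl j.card (Cardinal.lt_ord.1 hj)
    obtain ⟨ν', hν', he'⟩ := Cardinal.lt_lift_iff.1 (hC1 β j)
    obtain ⟨i', hi', hi2'⟩ := hcofl ν' hν'
    have hm : max i i' < μ.ord.cof.ord := max_lt hi hi'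
    refine ⟨max i i', hm, fun α hα hαβ hαc => ?_⟩
    have hmem : max i i' ∈ S α β := by
      refine ⟨hm, j, ?_, ?_, hj2 α hα hαβ hαc⟩
      · exact Cardinal.lt_ord.2 (hi2.trans_le (hmono _ _ (le_max_left _ _) hm))
      · rw [← he', Cardinal.lift_le]
        exact hi2'.le.trans (hmono _ _ (le_max_right _ _) hm)
    change (if (S α β).Nonempty then sInf (S α β) else μ.ord.cof.ord) ≤ max i i'
    rw [if_pos ⟨_, hmem⟩]
    exact csInf_le' hmem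

/-- The reduction to smaller cardinals. -/
theorem sv_club (hMono : Stmt_Mono) (hTail : Stmt_Tail) (hCompl : Stmt_Compl)
    (hFodor : Stmt_Fodor)
    (hCofPts : Stmt_CofPts) (hSeq : Stmt_Seq) (hCofEq : Stmt_CofEq) (hLift : Stmt_Lift)
    (hPull : Stmt_Pull) (hKEQ : Stmt_KEQ) (hTrans : Stmt_Trans) (hRank : Stmt_Rank)
    (hGFun : Stmt_GFun) (hCofinal : Stmt_Cofinal) (hXCard : Stmt_XCard)
    {lam θ : Cardinal.{0}} (h1 : ℵ₀ < lam.ord.cof) (h3 : ∀ ν < lam, ν ^ lam.ord.cof < lam)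
    (h5 : θ.IsRegular) (h6 : lam.ord.cof < θ) (h7 : θ < lam) (hfail : ¬ SV lam θ) :
    ∃ E : Set Ordinal.{0}, IsClubIn E lam.ord ∧
      ∀ ε ∈ E, ∃ μ : Cardinal.{0}, ε = μ.ord ∧ ¬ SV μ θ := by
  by_contra hcon
  push Not at hcon
  obtain ⟨μ, c⟩ := Reduce.exists_ctx hSeq h1 (h6.trans h7) h3 h5 h6 h7
  refine hfail (transfer hTail hCompl hFodor hCofPts hSeq hCofEq hLift hPull hKEQ hTrans hRank
    hGFun hCofinal hXCard c rfl ?_)
  refine t_StatCF hMono lam.ord.cof c.kreg h1 {k | SV (μ k) θ} fun C hC => ?_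
  obtain ⟨_, ⟨k, hk, rfl⟩, h8⟩ := hcon _ (Reduce.isClubIn_image c hC)
  exact ⟨k, hk, h8 (μ k) rfl⟩

/-- A club contains a club of points of small cofinality. -/
theorem exists_club_below (hTail : Stmt_Tail) (hCofPts : Stmt_CofPts) (hSeq : Stmt_Seq)
    (hCofEq : Stmt_CofEq) (hPull : Stmt_Pull) {lam : Cardinal.{0}} (hlam : ℵ₀ ≤ lam)
    (h1 : ℵ₀ < lam.ord.cof) {E : Set Ordinal.{0}} (hE : IsClubIn E lam.ord) (x : Ordinal.{0})
    (hx : x < lam.ord) :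
    ∃ E' : Set Ordinal.{0}, IsClubIn E' lam.ord ∧ ∀ ε ∈ E', ε ∈ E ∧ x < ε ∧
      ε.cof < lam.ord.cof := by
  have hκreg : lam.ord.cof.IsRegular := Cardinal.isRegular_cof (Cardinal.isSuccLimit_ord hlam)
  obtain ⟨e, he⟩ := hSeq lam.ord h1.le
  obtain ⟨i, hi, hi2⟩ := he.cofinal x hx
  obtain ⟨h, hh, hh2⟩ := eventually_CF.1
    ((hPull lam.ord.cof lam.ord e E hκreg he hE).and (hTail lam.ord.cof.ord i hi))
  refine ⟨_, isClubIn_image he (isClubIn_CP hTail hCofPts hκreg h1 hh), ?_⟩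
  rintro _ ⟨k, hk, rfl⟩
  obtain ⟨h3, h4⟩ := hh2 k hk
  refine ⟨h3.2, hi2.trans (he.strict k hk.1 i h4.1), ?_⟩
  rw [cof_eq hCofEq he hk.1 hk.2.1]
  exact (Ordinal.cof_le_card k).trans_lt (Cardinal.lt_ord.1 hk.1)

/-- Clubs of an ordinal of uncountable cofinality meet in points of cofinality `ω`. -/
theorem exists_cof_aleph0 (hCofPts : Stmt_CofPts) (hSeq : Stmt_Seq) (hCofEq : Stmt_CofEq)
    (hPull : Stmt_Pull) {lam : Cardinal.{0}} (hlam : ℵ₀ ≤ lam) (h1 : ℵ₀ < lam.ord.cof)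
    {E C : Set Ordinal.{0}} (hE : IsClubIn E lam.ord) (hC : IsClubIn C lam.ord) :
    ∃ ε ∈ E, ε ∈ C ∧ ε.cof = ℵ₀ := by
  have hκreg : lam.ord.cof.IsRegular := Cardinal.isRegular_cof (Cardinal.isSuccLimit_ord hlam)
  obtain ⟨e, he⟩ := hSeq lam.ord h1.le
  have h2 : ∀ᶠ k in CF lam.ord.cof.ord, k < lam.ord.cof.ord ∧ IsSuccLimit k :=
    eventually_CF.2 ⟨id, fun _ h => h, fun ξ hξ => ⟨hξ.1, hξ.2.1⟩⟩
  obtain ⟨k, hk, ⟨hk1, hk2⟩, hk3, hk4⟩ :=
    ((hCofPts lam.ord.cof ℵ₀ hκreg Cardinal.isRegular_aleph0 h1).and_eventually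
      (h2.and ((hPull lam.ord.cof lam.ord e E hκreg he hE).and
        (hPull lam.ord.cof lam.ord e C hκreg he hC)))).exists
  exact ⟨e k, hk3.2, hk4.2, (cof_eq hCofEq he hk1 hk2).trans hk⟩

end Pool.FAS
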