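import Pool.Agent.FAS.Chain
import Pool.Agent.FAS.Capture
import Pool.Agent.FAT.Trans
import Pool.Agent.FAT.XCard

/-!
MP_a44074_lc, project FAS: the strategic version is inherited by singular cardinals of uncountable
cofinality.
-/

set_option autoImplicit false

namespace Pool.FAS

open Ordinal Cardinal Order Set Pool.FAT

theorem transfer (hTail : Stmt_Tail) (hCompl : Stmt_Compl) (hFodor : Stmt_Fodor)
    (hCofPts : Stmt_CofPts) (hSeq : Stmt_Seq) (hCofEq : Stmt_CofEq) (hLift : Stmt_Lift)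
    (hPull : Stmt_Pull) (hKEQ : Stmt_KEQ) (hTrans : Stmt_Trans) (hRank : Stmt_Rank)
    (hGFun : Stmt_GFun) (hCofinal : Stmt_Cofinal) (hXCard : Stmt_XCard)
    {lam κ θ : Cardinal.{0}} {μ : Ordinal.{0} → Cardinal.{0}} (c : Ctx lam κ θ μ)
    (hcof : lam.ord.cof = κ) (hst : ∃ᶠ k in CF κ.ord, SV (μ k) θ) : SV lam θ := by
  classical
  have hKlim : IsSuccLimit κ.ord := Cardinal.isSuccLimit_ord c.kreg.aleph0_le
  obtain ⟨A₀, f₀⟩ := hTrans lam κ μ (fun _ => ∅) (Final.ctx_aleph0_lam c) c.kreg.aleph0_le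
    (Final.ctx_mono c) (Final.ctx_aleph0_le c) c.cofinal (by
      intro β _
      refine ⟨Set.empty_subset _, fun k _ => ?_⟩
      simp)
  obtain ⟨F, sc⟩ := hRank lam κ μ (fun _ => ∅) A₀ (Final.ctx_aleph0_le c) f₀
  obtain ⟨G, gf⟩ := hGFun lam κ θ μ F c sc
  -- the data at `μ k`
  have hdat : ∀ k : Ordinal.{0}, ∃ (d : Ordinal.{0} → Ordinal.{0} → Ordinal.{0})
      (Φ : Set Ordinal.{0} → Ordinal.{0}),
      (∀ s : Set Ordinal.{0}, s ⊆ Set.Iio (succ (μ k)).ord → #s < Cardinal.lift.{1} θ →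
        Φ s < (succ (μ k)).ord) ∧
      (SV (μ k) θ → (∀ i < (μ k).ord.cof.ord, ∀ β < (succ (μ k)).ord,
        #{α : Ordinal.{0} // α < β ∧ d α β ≤ i} < Cardinal.lift.{1} (μ k)) ∧
        ∀ γ < (succ (μ k)).ord, ∀ e : Ordinal.{0} → Ordinal.{0}, NSeq θ.ord γ e →
          Fast Φ θ.ord e → ∃ D : Set Ordinal.{0}, IsClubIn D γ ∧
            ∀ β ∈ D, β.cof = (μ k).ord.cof →
              ∃ i < (μ k).ord.cof.ord, ∀ α ∈ D, α < β → α.cof = (μ k).ord.cof → d α β ≤ i) := by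
    intro k
    by_cases h : SV (μ k) θ
    · obtain ⟨d, Φ, h1, h2, h3⟩ := h
      exact ⟨d, Φ, h2, fun _ => ⟨h1, h3⟩⟩
    · refine ⟨fun _ _ => 0, fun _ => 0, fun s _ _ => ?_, fun h' => absurd h' h⟩
      rw [← Cardinal.ord_zero, Cardinal.ord_lt_ord]
      exact (zero_le (a := μ k)).trans_lt (lt_succ _)
  choose d Φk hΦk hdk using hdat
  obtain ⟨Φ, hΦ1, hΦ2⟩ := chain_of_fast hTail hCofinal c sc Φk (fun k _ => hΦk k)
  -- the families
  let C : Ordinal.{0} → Ordinal.{0} → Ordinal.{0} → Set Ordinal.{0} := fun k ε j =>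
    if j < (μ k).ord.cof.ord ∧ ε < (succ (μ k)).ord ∧ SV (μ k) θ then
      {α | α < ε ∧ d k α ε ≤ j} else ∅
  have hCcard : ∀ k < κ.ord, ∀ ε j, #(C k ε j) < Cardinal.lift.{1} (μ k) := by
    intro k hk ε j
    change #(if j < (μ k).ord.cof.ord ∧ ε < (succ (μ k)).ord ∧ SV (μ k) θ then
      {α | α < ε ∧ d k α ε ≤ j} else ∅ : Set Ordinal.{0}) < _
    split_ifs with h
    · exact (hdk k h.2.2).1 j h.1 ε h.2.1
    · rw [Cardinal.mk_eq_zero]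
      exact Cardinal.aleph0_pos.trans_le (Cardinal.aleph0_le_lift.2 (Final.ctx_aleph0_le c k hk))
  -- injections
  have hinj : ∀ β : Ordinal.{0}, ∃ f : Ordinal.{0} → Ordinal.{0}, β < (succ lam).ord →
      (∀ a < β, f a < lam.ord) ∧ ∀ a < β, ∀ a' < β, f a = f a' → a = a' := by
    intro β
    by_cases hβ : β < (succ lam).ord
    · obtain ⟨f, hf⟩ := TransX.exists_inj lam β hβ
      exact ⟨f, fun _ => hf⟩
    · exact ⟨fun _ => 0, fun h => absurd h hβ⟩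
  choose g hg using hinj
  let dl : Ordinal.{0} → Ordinal.{0} → Ordinal.{0} := fun α β =>
    sInf {ν | ν < κ.ord ∧ (α ∈ XX κ μ G C ν β ∨ g β α < (μ ν).ord)}
  have hdl_mem : ∀ β < (succ lam).ord, ∀ α < β, dl α β < κ.ord ∧
      (α ∈ XX κ μ G C (dl α β) β ∨ g β α < (μ (dl α β)).ord) := by
    intro β hβ α hα
    have h1 := (hg β hβ).1 α hα
    obtain ⟨k, hk, hk2⟩ := c.cofinal (g β α).card (Cardinal.lt_ord.1 h1)
    exact csInf_mem (s := {ν | ν < κ.ord ∧ (α ∈ XX κ μ G C ν β ∨ g β α < (μ ν).ord)})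
      ⟨k, hk, Or.inr (Cardinal.lt_ord.2 hk2)⟩
  have hdl_le : ∀ α β ν, ν < κ.ord → α ∈ XX κ μ G C ν β → dl α β ≤ ν :=
    fun α β ν h1 h2 => csInf_le' ⟨h1, Or.inl h2⟩
  have hXmono : ∀ ν i, ν ≤ i → i < κ.ord → ∀ β, XX κ μ G C ν β ⊆ XX κ μ G C i β := by
    rintro ν i hνi hi β a ⟨h1, h2, h3⟩
    refine ⟨h1, h2, h3.mono ?_⟩
    rintro k ⟨j, hj, hj2, hj3⟩
    have h4 := Final.ctx_mono c ν i hνi hi
    exact ⟨j, hj.trans_le (Cardinal.ord_le_ord.2 h4), hj2.trans (Cardinal.lift_le.2 h4), hj3⟩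
  refine ⟨dl, Φ, ?_, hΦ1, ?_⟩
  · -- normality
    intro i hi β hβ
    rw [hcof] at hi
    have hsub : {α : Ordinal.{0} | α < β ∧ dl α β ≤ i} ⊆
        XX κ μ G C i β ∪ {α | α < β ∧ g β α < (μ i).ord} := by
      rintro α ⟨hα, h1⟩
      rcases (hdl_mem β hβ α hα).2 with h2 | h2
      · exact Or.inl (hXmono _ i h1 hi β h2)
      · exact Or.inr ⟨hα, h2.trans_le (Cardinal.ord_le_ord.2 (Final.ctx_mono c _ i h1 hi))⟩
    have h2 : #{α | α < β ∧ g β α < (μ i).ord} ≤ Cardinal.lift.{1} (μ i) := by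
      have h3 : #(Set.Iio (μ i).ord) = Cardinal.lift.{1} (μ i) := by
        rw [Cardinal.mk_Iio_ordinal, Cardinal.card_ord]
      rw [← h3]
      refine Cardinal.mk_le_of_injective
        (f := fun a : {α | α < β ∧ g β α < (μ i).ord} => (⟨g β a.1, a.2.2⟩ : Set.Iio (μ i).ord)) ?_
      rintro ⟨a, ha⟩ ⟨a', ha'⟩ h4
      exact Subtype.ext ((hg β hβ).2 a ha.1 a' ha'.1 (congrArg Subtype.val h4))
    have h3 : #(XX κ μ G C i β) ≤ Cardinal.lift.{1} ((μ i) ^ κ) :=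
      hXCard lam κ θ μ F G C c gf i hi β hβ
    have h4 : #{α : Ordinal.{0} | α < β ∧ dl α β ≤ i} ≤
        Cardinal.lift.{1} ((μ i) ^ κ + μ i) := by
      refine (Cardinal.mk_le_mk_of_subset hsub).trans ((Cardinal.mk_union_le _ _).trans ?_)
      rw [Cardinal.lift_add]
      exact add_le_add h3 h2
    refine lt_of_le_of_lt h4 (Cardinal.lift_lt.2 ?_)
    exact Cardinal.add_lt_of_lt (Final.ctx_aleph0_lam c) (c.pow _ (c.lt i hi)) (c.lt i hi)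
  · -- clubs
    intro γ hγ δ hδ hfast
    obtain ⟨Γ, χ, hch, hχ⟩ := hΦ2 γ hγ δ hδ hfast
    have hWS : ∃ᶠ k in CF κ.ord, k ∈ {k | SV (μ k) θ} := hst
    obtain ⟨P, hP, hcap⟩ := capture hTail hCompl hFodor hSeq hCofEq hLift hPull hKEQ
      (C := C) c sc gf hch {k | SV (μ k) θ} hWS (by
        intro k hk hkκ
        refine ⟨hCcard k hkκ, ?_⟩
        obtain ⟨D, hD, hD2⟩ := (hdk k hk).2 (Γ k) (hch.Gam k hkκ) (fun η => χ η k)
          (hch.chi k hkκ) (hχ k hkκ)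
        refine ⟨D, hD, fun ε hε hεc => ?_⟩
        obtain ⟨i, hi, h4⟩ := hD2 ε hε hεc
        refine ⟨i, hi.trans_le (Cardinal.ord_le_ord.2 (Ordinal.cof_ord_le (μ k))), ?_⟩
        intro α hα hαε hαc
        change α ∈ (if i < (μ k).ord.cof.ord ∧ ε < (succ (μ k)).ord ∧ SV (μ k) θ then
          {α | α < ε ∧ d k α ε ≤ i} else ∅ : Set Ordinal.{0})
        rw [if_pos ⟨hi, (hD.1 hε).trans (hch.Gam k hkκ), hk⟩]
        exact ⟨hαε, h4 α hα hαε hαc⟩)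
    obtain ⟨h, hh1, hh2⟩ := eventually_CF.1 hP
    have hθunc : ℵ₀ < θ := c.kunc.trans c.tbig
    have hclub := isClubIn_CP hTail hCofPts c.treg hθunc hh1
    refine ⟨δ '' CP θ.ord h, isClubIn_image hδ hclub, ?_⟩
    rintro _ ⟨ξ, hξ, rfl⟩ hξc
    rw [hcof] at hξc ⊢
    have hξc' : ξ.cof = κ := (cof_eq hCofEq hδ hξ.1 hξ.2.1).symm.trans hξc
    obtain ⟨ν, hν, hν2⟩ := hcap ξ (hh2 ξ hξ) hξc'
    refine ⟨ν, hν, ?_⟩
    rintro _ ⟨ξ', hξ', rfl⟩ hlt hξc2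
    have hξc3 : ξ'.cof = κ := (cof_eq hCofEq hδ hξ'.1 hξ'.2.1).symm.trans hξc2
    refine hdl_le _ _ ν hν (hν2 ξ' ?_ (hh2 ξ' hξ') hξc3)
    by_contra hcon
    rcases (not_lt.1 hcon).lt_or_eq with h5 | h5
    · exact absurd (hδ.strict ξ' hξ'.1 ξ h5) (not_lt.2 hlt.le)
    · rw [h5] at hlt
      exact lt_irrefl _ hlt

end Pool.FAS
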